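import Pool.Agent.Lib.MP_d2ae2d_co.QDef

/-! The product-closed property with `c` apex vertices. -/

set_option autoImplicit false

namespace Pool.Agent.Lib.MP_d2ae2d_co.All

open Finset

def QC {V : Type*} [DecidableEq V] (c k : ℕ) (H : Finset (Finset V)) (W : Set V) : Prop :=
  W.Nonempty ∧ ∀ u : Fin c → V, (∀ l, u l ∈ W) → ∃ (d : Fin k → V) (z : ℕ → V),
    (∀ j, d j ∈ W ∧ ∀ l, Adj k H (u l) (d j)) ∧ ∀ i, z i ∈ W ∧ (∀ l, Adj k H (u l) (z i)) ∧
      Ed H (z i) (z (i + 1)) d ∧ Adj k H (z i) (z (i + 2))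

section
variable {U V : Type*} [DecidableEq U] [DecidableEq V] {c k : ℕ}

lemma QC.map {G : Finset (Finset U)} {H : Finset (Finset V)} {f : U → V} (hf : Hom G H f)
    {W : Set U} (h : QC c k G W) : QC c k H (f '' W) := by
  refine ⟨h.1.image f, fun u hu => ?_⟩
  choose w hw e using hu
  obtain ⟨d, z, hd, hz⟩ := h.2 w hw
  exact ⟨fun j => f (d j), fun i => f (z i),
    fun j => ⟨⟨_, (hd j).1, rfl⟩, fun l => e l ▸ ((hd j).2 l).map hf⟩,
    fun i => ⟨⟨_, (hz i).1, rfl⟩, fun l => e l ▸ ((hz i).2.1 l).map hf, (hz i).2.2.1.map hf,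
      (hz i).2.2.2.map hf⟩⟩

lemma QC.nonempty {H : Finset (Finset V)} {W : Set V} (h : QC c k H W) : H.Nonempty := by
  obtain ⟨u, hu⟩ := h.1
  obtain ⟨d, z, -, hz⟩ := h.2 (fun _ => u) fun _ => hu
  exact ⟨_, (hz 0).2.2.1⟩

end

lemma exists_product {I V : Type*} [Fintype I] [Nonempty I] [Fintype V] [DecidableEq V] {c k : ℕ}
    (H : I → Finset (Finset V)) (hH : ∀ i, Unif (k + 2) (H i)) (hQ : ∀ i, ∃ W, QC c k (H i) W) :
    ∃ (m : ℕ) (G : Finset (Finset (Fin m))), Unif (k + 2) G ∧ (∃ W, QC c k G W) ∧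
      ∀ i, ∃ ψ, Hom G (H i) ψ := by
  classical
  choose W hW using hQ
  set P : Finset (Finset (I → V)) := univ.filter (fun e => ∃ (u v : I → V) (d : Fin k → I → V),
    e = insert u (insert v (univ.image d)) ∧ ∀ i, Ed (H i) (u i) (v i) (fun j => d j i)) with hP
  have hhom : ∀ i, Hom P (H i) (fun u => u i) := by
    intro i e he
    simp only [hP, Finset.mem_filter, Finset.mem_univ, true_and] at he
    obtain ⟨u, v, d, rfl, h⟩ := he
    rw [Finset.image_insert, Finset.image_insert, Finset.image_image]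
    exact h i
  have hunif : Unif (k + 2) P := by
    intro e he
    obtain ⟨i⟩ := (inferInstance : Nonempty I)
    have h1 := hH i _ (hhom i e he)
    have h2 := Finset.card_image_le (s := e) (f := fun u => u i)
    simp only [hP, Finset.mem_filter, Finset.mem_univ, true_and] at he
    obtain ⟨u, v, d, rfl, h⟩ := he
    have h3 := card_ed_le u v d
    omega
  have hed : ∀ (u v : I → V) (d : Fin k → I → V),
      (∀ i, Ed (H i) (u i) (v i) (fun j => d j i)) → Ed P u v d := by
    intro u v d h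
    exact Finset.mem_filter.2 ⟨Finset.mem_univ _, u, v, d, rfl, h⟩
  have hadj : ∀ (u v : I → V), (∀ i, Adj k (H i) (u i) (v i)) → Adj k P u v := by
    intro u v h
    choose d hd using h
    exact ⟨fun j i => d i j, hed _ _ _ hd⟩
  have hQP : QC c k P {u | ∀ i, u i ∈ W i} := by
    refine ⟨?_, fun u hu => ?_⟩
    · choose w hw using fun i => (hW i).1
      exact ⟨w, hw⟩
    · choose d z hd hz using fun i => (hW i).2 (fun l => u l i) (fun l => hu l i)
      refine ⟨fun j i => d i j, fun n i => z i n, fun j => ⟨fun i => (hd i j).1, fun l =>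
        hadj _ _ fun i => (hd i j).2 l⟩, fun n => ⟨fun i => (hz i n).1, fun l =>
        hadj _ _ fun i => (hz i n).2.1 l, hed _ _ _ fun i => (hz i n).2.2.1,
        hadj _ _ fun i => (hz i n).2.2.2⟩⟩
  let e := Fintype.equivFin (I → V)
  have h1 : Hom P (P.image (Finset.image e)) e := fun A hA => Finset.mem_image_of_mem _ hA
  have h2 : Hom (P.image (Finset.image e)) P e.symm := by
    intro A hA
    obtain ⟨B, hB, rfl⟩ := Finset.mem_image.1 hA
    rw [Finset.image_image]
    simpa using hB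
  refine ⟨_, P.image (Finset.image e), ?_, ⟨_, hQP.map h1⟩, fun i => ⟨_, h2.comp (hhom i)⟩⟩
  intro A hA
  obtain ⟨B, hB, rfl⟩ := Finset.mem_image.1 hA
  rw [Finset.card_image_of_injective _ e.injective, hunif B hB]

end Pool.Agent.Lib.MP_d2ae2d_co.All
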