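import Pool.Agent.Lib.MP_d2ae2d_co.All.Pat
import Pool.Agent.Lib.MP_d2ae2d_co.All.QC
import Pool.Agent.Lib.MP_d2ae2d_co.Group

/-! A hypergraph denser than the pattern with no small substructure having the property. -/

set_option autoImplicit false

namespace Pool.Agent.Lib.MP_d2ae2d_co.All

open Finset

abbrev Vx (c t : ℕ) (Γ : Type) : Type := Fin c ⊕ (Fin (t + 2) × Γ)

section
variable {Γ : Type} [Group Γ] [Fintype Γ] [DecidableEq Γ] {s c t : ℕ}

def graph (c : ℕ) (v : Fin (t + 2) → Γ) : Finset (Vx c t Γ) :=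
  univ.image (fun i => Sum.inr (i, v i))

def goodV (t : ℕ) (σ : Fin s → Γ) : Finset (Fin (t + 2) → Γ) :=
  univ.filter (fun v => ∃ i, (List.ofFn v).prod = σ i)

def bigH (c t : ℕ) (σ : Fin s → Γ) : Finset (Finset (Vx c t Γ)) :=
  (univ.powersetCard (t + 2)).filter (fun e => ∃ l, Sum.inl l ∈ e) ∪ (goodV t σ).image (graph c)

omit [Group Γ] [Fintype Γ] in
lemma mem_graph (v : Fin (t + 2) → Γ) (x : Fin (t + 2) × Γ) :
    Sum.inr x ∈ graph c v ↔ v x.1 = x.2 := by
  simp only [graph, mem_image, mem_univ, true_and, Sum.inr.injEq]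
  constructor
  · rintro ⟨c, rfl⟩
    rfl
  · intro h
    exact ⟨x.1, by rw [h]⟩

omit [Group Γ] [Fintype Γ] in
lemma inl_notMem_graph (v : Fin (t + 2) → Γ) (l : Fin c) : Sum.inl l ∉ graph c v := by
  simp [graph]

omit [Group Γ] [Fintype Γ] in
lemma graph_card (c : ℕ) (v : Fin (t + 2) → Γ) : (graph c v).card = t + 2 := by
  rw [graph, card_image_of_injective]
  · simp
  · intro a b h
    simp only [Sum.inr.injEq, Prod.mk.injEq] at h
    exact h.1

omit [Group Γ] [Fintype Γ] in
lemma graph_inj : Function.Injective (graph (Γ := Γ) (t := t) c) := by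
  intro v w h
  funext i
  have : Sum.inr (i, v i) ∈ graph c v := (mem_graph _ _).2 rfl
  rw [h, mem_graph] at this
  exact this.symm

lemma bigH_unif (σ : Fin s → Γ) : Unif (t + 2) (bigH c t σ) := by
  intro e he
  rcases mem_union.1 he with h | h
  · exact (mem_powersetCard.1 (mem_filter.1 h).1).2
  · obtain ⟨v, -, rfl⟩ := mem_image.1 h
    exact graph_card c v

lemma goodV_card {σ : Fin s → Γ} (hσ : Function.Injective σ) :
    s * Fintype.card Γ ^ (t + 1) ≤ (goodV t σ).card := by
  have : s * Fintype.card Γ ^ (t + 1) = (univ : Finset (Fin s × (Fin (t + 1) → Γ))).card := by simp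
  rw [this]
  refine card_le_card_of_injOn
    (fun p => (Fin.cons (σ p.1 * ((List.ofFn p.2).prod)⁻¹) p.2 : Fin (t + 2) → Γ)) ?_ ?_
  · intro p _
    refine mem_coe.2 (mem_filter.2 ⟨mem_univ _, p.1, ?_⟩)
    rw [List.ofFn_succ]
    simp only [Fin.cons_zero, Fin.cons_succ, List.prod_cons]
    group
  · rintro ⟨i, v⟩ - ⟨j, w⟩ - h
    obtain ⟨h1, h2⟩ := Fin.cons_injective2 h
    simp only at h1 h2
    subst h2
    rw [hσ (mul_right_cancel h1)]

noncomputable def wt (t : ℕ) (Γ : Type) [Fintype Γ] (w : Option (Fin c) → ℝ) : Vx c t Γ → ℝ :=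
  Sum.elim (fun l => w (some l)) (fun _ => w none / ((t + 2) * Fintype.card Γ))

omit [DecidableEq Γ] in
lemma wt_push (w : Option (Fin c) → ℝ) :
    push (Sum.elim some (fun _ => none)) (wt t Γ w) = w := by
  have hn : (0 : ℝ) < Fintype.card Γ := by exact_mod_cast Fintype.card_pos
  funext o
  rw [push, sum_filter, Fintype.sum_sum_type]
  cases o with
  | none => simp [wt]; field_simp
  | some l => simp [wt]

omit [Group Γ] [DecidableEq Γ] in
lemma wt_nonneg {w : Option (Fin c) → ℝ} (hw : ∀ o, 0 ≤ w o) (v : Vx c t Γ) : 0 ≤ wt t Γ w v := by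
  have := hw none
  cases v with
  | inl l => exact hw _
  | inr x => simp only [wt, Sum.elim_inr]; positivity

omit [DecidableEq Γ] in
lemma wt_sum {w : Option (Fin c) → ℝ} (hw : ∑ o, w o = 1) : ∑ v, wt t Γ w v = 1 := by
  rw [← push_sum (Sum.elim some (fun _ => none)), wt_push, hw]

lemma bigH_poly {w : Option (Fin c) → ℝ} (hw0 : ∀ o, 0 ≤ w o) (hw1 : ∑ o, w o = 1)
    (hs : ((t : ℝ) + 2) ^ (t + 3) < s * w none ^ (t + 2)) {σ : Fin s → Γ}
    (hσ : Function.Injective σ) :
    GG (t + 2) c w < (t + 2).factorial * poly (bigH c t σ) (wt t Γ w) := by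
  have hn0 : (0 : ℝ) < Fintype.card Γ := by exact_mod_cast Fintype.card_pos
  set n : ℝ := (Fintype.card Γ : ℝ) with hn
  set Y := w none with hY
  have Y0 : 0 ≤ Y := hw0 none
  have Y1 : Y ≤ 1 := hw1 ▸ single_le_sum (f := w) (fun o _ => hw0 o) (mem_univ none)
  have t0 : (0 : ℝ) ≤ t := Nat.cast_nonneg _
  have hK : (1 : ℝ) ≤ (t + 2).factorial := by exact_mod_cast Nat.factorial_pos _
  set R : Finset (Vx c t Γ) := univ.map Function.Embedding.inr with hR
  have hU : Unif (t + 2) ((goodV t σ).image (graph c)) := fun e he =>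
    bigH_unif σ e (mem_union_right _ he)
  have h1 : poly ((goodV t σ).image (graph c)) (wt t Γ w) =
      (goodV t σ).card * (Y / ((t + 2) * n)) ^ (t + 2) := by
    rw [poly, sum_image (fun a _ b _ h => graph_inj h),
      sum_congr rfl (g := fun _ => (Y / ((t + 2) * n)) ^ (t + 2))]
    · simp
    · intro v _
      rw [prod_congr rfl (g := fun _ => Y / ((t + 2) * n)), prod_const, graph_card]
      intro o ho
      cases o with
      | inl l => exact absurd ho (inl_notMem_graph v l)
      | inr x => rfl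
  have h2 : s * n ^ (t + 1) ≤ (goodV t σ).card := by
    rw [hn]; exact_mod_cast goodV_card (t := t) hσ
  have h3 : ∑ v ∈ R, wt t Γ w v ^ 2 = Y ^ 2 / ((t + 2) * n) := by
    simp [hR, wt, ← hn, ← hY]; field_simp
  have h4 : ∑ p ∈ (univ : Finset (Fin (t + 2))).offDiag, Ex (wt t Γ w)
      (fun g : Fin (t + 2) → Vx c t Γ => ind (g p.1 = g p.2 ∧ g p.1 ∈ R)) ≤ (t + 2) / n := by
    rw [sum_congr rfl fun p hp => (Ex_pair (wt_sum hw1) R (mem_offDiag.1 hp).2.2).trans h3,
      sum_const, nsmul_eq_mul]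
    have a1 : ((univ : Finset (Fin (t + 2))).offDiag.card : ℝ) ≤ (t + 2) * (t + 2) := by
      have : (univ : Finset (Fin (t + 2))).offDiag.card ≤ (t + 2) * (t + 2) := by
        rw [offDiag_card]; simp
      exact_mod_cast this
    have a2 : Y ^ 2 ≤ 1 := pow_le_one₀ Y0 Y1
    calc _ ≤ ((t : ℝ) + 2) * (t + 2) * (1 / ((t + 2) * n)) := by gcongr
      _ = _ := by field_simp
  have h5 : ((t : ℝ) + 2) / n < (t + 2).factorial *
      poly ((goodV t σ).image (graph c)) (wt t Γ w) := by
    rw [h1]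
    calc ((t : ℝ) + 2) / n = (t + 2) ^ (t + 3) / ((t + 2) ^ (t + 2) * n) := by field_simp; ring
      _ < s * Y ^ (t + 2) / ((t + 2) ^ (t + 2) * n) := by gcongr
      _ = 1 * (s * n ^ (t + 1) * (Y / ((t + 2) * n)) ^ (t + 2)) := by
          rw [div_pow, mul_pow]; field_simp; ring
      _ ≤ _ := by gcongr
  have h6 : GG (t + 2) c w = Ex (wt t Γ w) (fun g : Fin (t + 2) → Vx c t Γ =>
      ind (good fun i => Sum.elim some (fun _ => none) (g i))) := by
    rw [Ex_push (Sum.elim some (fun _ => none)) (wt t Γ w) (fun h => ind (good h)), wt_push, GG]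
  rw [← Ex_poly hU] at h5
  rw [← Ex_sum] at h4
  rw [← Ex_poly (bigH_unif σ), h6]
  refine lt_of_lt_of_le (lt_sub_iff_add_lt.2 (add_lt_add_of_le_of_lt le_rfl (h4.trans_lt h5))) ?_
  rw [← Ex_add, ← Ex_sub]
  refine Ex_mono (wt_nonneg hw0) fun g _ => ?_
  have s0 : ∀ p ∈ (univ : Finset (Fin (t + 2))).offDiag, 0 ≤ ind (g p.1 = g p.2 ∧ g p.1 ∈ R) :=
    fun _ _ => ind_nonneg _
  by_cases hg : good fun i => Sum.elim some (fun _ => none) (g i)
  · obtain ⟨i, hi⟩ := hg.2
    obtain ⟨l, hl⟩ : ∃ l, g i = Sum.inl l := by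
      cases h : g i with
      | inl l => exact ⟨l, rfl⟩
      | inr x => simp [h] at hi
    have hm : Sum.inl l ∈ univ.image g := hl ▸ mem_image_of_mem g (mem_univ i)
    have hno : univ.image g ∉ (goodV t σ).image (graph c) := fun h => by
      obtain ⟨v, -, e⟩ := mem_image.1 h
      exact inl_notMem_graph v l (e ▸ hm)
    rw [ind_pos hg, ind_neg hno, add_zero]
    by_cases hinj : Function.Injective g
    · have hb : univ.image g ∈ bigH c t σ := mem_union_left _ (mem_filter.2 ⟨mem_powersetCard.2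
        ⟨subset_univ _, by rw [card_image_of_injective _ hinj]; simp⟩, l, hm⟩)
      rw [ind_pos hb]
      exact sub_le_self _ (sum_nonneg s0)
    · obtain ⟨a, b, e, hab⟩ := Function.not_injective_iff.1 hinj
      have hR' : g a ∈ R := by
        cases h : g a with
        | inl l => exact absurd (hg.1 a b (by simp only [e]) (by simp [h])) hab
        | inr x => simp [hR]
      have := single_le_sum s0 (mem_offDiag.2 ⟨mem_univ (a, b).1, mem_univ _, hab⟩)
      rw [ind_pos ⟨e, hR'⟩] at this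
      exact (sub_nonpos.2 this).trans (ind_nonneg _)
  · rw [ind_neg hg, zero_add]
    exact (sub_le_self _ (sum_nonneg s0)).trans (ind_mono fun h => mem_union_right _ h)

end

end Pool.Agent.Lib.MP_d2ae2d_co.All
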