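import Pool.Agent.Lib.MP_d2ae2d_co.Basic

/-! Weighted sums over tuples. -/

set_option autoImplicit false

namespace Pool.Agent.Lib.MP_d2ae2d_co.All

open Finset

/-- indicator of a proposition -/
noncomputable def ind (p : Prop) : ℝ := by classical exact if p then 1 else 0

lemma ind_pos {p : Prop} (h : p) : ind p = 1 := by simp [ind, h]
lemma ind_neg {p : Prop} (h : ¬ p) : ind p = 0 := by simp [ind, h]
lemma ind_nonneg (p : Prop) : 0 ≤ ind p := by by_cases h : p <;> simp [ind, h]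
lemma ind_le_one (p : Prop) : ind p ≤ 1 := by by_cases h : p <;> simp [ind, h]
lemma ind_mono {p q : Prop} (h : p → q) : ind p ≤ ind q := by
  by_cases hp : p
  · rw [ind_pos hp, ind_pos (h hp)]
  · rw [ind_neg hp]; exact ind_nonneg q
lemma ind_ite (p : Prop) [Decidable p] : ind p = if p then 1 else 0 := by
  by_cases h : p <;> simp [ind, h]

section
variable {I V O : Type*} [Fintype I] [DecidableEq I] [Fintype V] [Fintype O]

/-- weighted sum over tuples -/
noncomputable def Ex (x : V → ℝ) (F : (I → V) → ℝ) : ℝ := ∑ g : I → V, (∏ i, x (g i)) * F g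

lemma Ex_mono {x : V → ℝ} (hx : ∀ v, 0 ≤ x v) {F G : (I → V) → ℝ}
    (h : ∀ g, (∀ i, x (g i) ≠ 0) → F g ≤ G g) : Ex x F ≤ Ex x G := by
  refine sum_le_sum fun g _ => ?_
  by_cases h0 : ∏ i, x (g i) = 0
  · simp [h0]
  · exact mul_le_mul_of_nonneg_left (h g fun i => prod_ne_zero_iff.1 h0 i (mem_univ i))
      (prod_nonneg fun i _ => hx _)

lemma Ex_add (x : V → ℝ) (F G : (I → V) → ℝ) : Ex x (fun g => F g + G g) = Ex x F + Ex x G := by
  simp [Ex, mul_add, sum_add_distrib]

lemma Ex_sub (x : V → ℝ) (F G : (I → V) → ℝ) : Ex x (fun g => F g - G g) = Ex x F - Ex x G := by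
  simp [Ex, mul_sub, sum_sub_distrib]

lemma Ex_sum {J : Type*} (s : Finset J) (x : V → ℝ) (F : J → (I → V) → ℝ) :
    Ex x (fun g => ∑ j ∈ s, F j g) = ∑ j ∈ s, Ex x (F j) := by
  simp only [Ex, mul_sum]
  exact sum_comm

lemma Ex_one {x : V → ℝ} (hx : ∑ v, x v = 1) : Ex x (fun _ : I → V => 1) = 1 := by
  simp only [Ex, mul_one]
  exact sum_weights x hx

lemma Ex_prod (x : V → ℝ) (f : I → V → ℝ) :
    Ex x (fun g => ∏ i, f i (g i)) = ∏ i, ∑ v, x v * f i v := by
  rw [prod_univ_sum, Fintype.piFinset_univ]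
  simp only [Ex, prod_mul_distrib]

lemma Ex_all [DecidableEq V] (x : V → ℝ) (B : Finset V) :
    Ex x (fun g : I → V => ind (∀ i, g i ∈ B)) = (∑ v ∈ B, x v) ^ Fintype.card I := by
  have h1 : ∀ g : I → V, ind (∀ i, g i ∈ B) = ∏ i, if g i ∈ B then (1 : ℝ) else 0 := fun g => by
    rw [ind_ite, prod_boole]; simp
  simp only [h1]
  rw [Ex_prod x (fun _ v => if v ∈ B then 1 else 0)]
  simp

lemma Ex_pair [DecidableEq V] {x : V → ℝ} (hx : ∑ v, x v = 1) (B : Finset V) {i j : I}
    (hij : i ≠ j) : Ex x (fun g : I → V => ind (g i = g j ∧ g i ∈ B)) = ∑ v ∈ B, x v ^ 2 := by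
  have h1 : ∀ g : I → V, ind (g i = g j ∧ g i ∈ B) = ∑ v ∈ B, ∏ l,
      if l ∈ ({i, j} : Finset I) then (if g l = v then (1 : ℝ) else 0) else 1 := fun g => by
    simp only [prod_ite_mem, univ_inter, prod_pair hij]
    rw [ind_ite]
    simp only [ite_mul, one_mul, zero_mul, sum_ite_eq]
    by_cases h' : g i = g j
    · simp [← h']
    · simp [h', Ne.symm h']
  simp only [h1]
  rw [Ex_sum]
  refine sum_congr rfl fun v _ => ?_
  rw [Ex_prod x (fun l w => if l ∈ ({i, j} : Finset I) then (if w = v then (1 : ℝ) else 0) else 1)]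
  have h2 : ∀ l, ∑ w, x w * (if l ∈ ({i, j} : Finset I) then (if w = v then (1 : ℝ) else 0)
      else 1) = if l ∈ ({i, j} : Finset I) then x v else 1 := fun l => by
    split_ifs <;> simp [hx]
  simp only [h2, prod_ite_mem, univ_inter, prod_pair hij, sq]

/-- push-forward of weights -/
noncomputable def push [DecidableEq O] (π : V → O) (x : V → ℝ) (o : O) : ℝ :=
  ∑ v with π v = o, x v

omit [Fintype O] in
lemma push_nonneg [DecidableEq O] (π : V → O) {x : V → ℝ} (hx : ∀ v, 0 ≤ x v) (o : O) :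
    0 ≤ push π x o := sum_nonneg fun v _ => hx v

lemma push_sum [DecidableEq O] (π : V → O) (x : V → ℝ) : ∑ o, push π x o = ∑ v, x v :=
  sum_fiberwise _ _ _

lemma Ex_push [DecidableEq O] (π : V → O) (x : V → ℝ) (F : (I → O) → ℝ) :
    Ex x (fun g => F (fun i => π (g i))) = Ex (push π x) F := by
  classical
  unfold Ex
  rw [← sum_fiberwise univ (fun (g : I → V) i => π (g i))]
  refine sum_congr rfl fun h _ => ?_
  simp only [push]
  rw [prod_univ_sum, sum_mul]
  refine sum_congr ?_ fun g hg => ?_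
  · ext g
    simp [funext_iff]
  · congr 2
    funext i
    simpa using Fintype.mem_piFinset.1 hg i

lemma Ex_poly [DecidableEq V] {r : ℕ} {H : Finset (Finset V)} (hH : Unif r H) (x : V → ℝ) :
    Ex x (fun g : Fin r → V => ind (univ.image g ∈ H)) = r.factorial * poly H x := by
  simp only [ind_ite]
  exact sum_tuples (by simp) hH x

lemma Ex_cons {n : ℕ} (x : V → ℝ) (F : (Fin (n + 1) → V) → ℝ) :
    Ex x F = ∑ a, x a * Ex x (fun h : Fin n → V => F (Fin.cons a h)) := by
  unfold Ex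
  rw [← (Fin.consEquiv (fun _ => V)).sum_comp, Fintype.sum_prod_type]
  refine sum_congr rfl fun a _ => ?_
  rw [mul_sum]
  refine sum_congr rfl fun h _ => ?_
  simp [Fin.prod_univ_succ, mul_assoc, Fin.consEquiv]

lemma Ex_mul (x : V → ℝ) (a : ℝ) (F : (I → V) → ℝ) : Ex x (fun g => a * F g) = a * Ex x F := by
  simp only [Ex, mul_sum]
  exact sum_congr rfl fun g _ => by ring

lemma Ex_split {n : ℕ} (x : V → ℝ) (φ : V → V → ℝ) (F : (Fin n → V) → ℝ) :
    Ex x (fun g : Fin (n + 2) → V => φ (g 0) (g 1) * F (fun i => g i.succ.succ)) =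
      (∑ a, ∑ b, x a * x b * φ a b) * Ex x F := by
  rw [Ex_cons, sum_mul]
  refine sum_congr rfl fun a _ => ?_
  rw [Ex_cons, sum_mul, mul_sum]
  refine sum_congr rfl fun b _ => ?_
  have := Ex_mul x (φ a b) F
  simp only [Fin.cons_zero, Fin.cons_succ, Fin.cons_one, this]
  ring

omit [Fintype V] in
lemma inj_of_mem [DecidableEq V] {r : ℕ} {H : Finset (Finset V)} (hH : Unif r H)
    {g : Fin r → V} (h : univ.image g ∈ H) : Function.Injective g := by
  have : (univ.image g).card = (univ : Finset (Fin r)).card := by rw [hH _ h]; simp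
  simpa using card_image_iff.1 this

end

end Pool.Agent.Lib.MP_d2ae2d_co.All
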