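import Pool.Agent.Lib.MP_d2ae2d_co.All.Big

/-! The construction has no small substructure with the property. -/

set_option autoImplicit false

namespace Pool.Agent.Lib.MP_d2ae2d_co.All

open Finset

section
variable {Γ : Type} [Group Γ] [Fintype Γ] [DecidableEq Γ] {s c t : ℕ}

omit [Fintype Γ] in
lemma walk_core {L : ℕ} {σ : Fin s → Γ} (hinv : ∀ i, (σ i)⁻¹ = σ i)
    (hfree : ∀ (a : ℕ → Fin s) (g : ℕ → Γ), (∀ j, a j ≠ a (j + 1)) → g 0 = 1 →
        (∀ j, g (j + 1) = σ (a j) * g j) → ∀ i ≤ L, ∀ j ≤ L, g i = g j → i = j)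
    (D : Finset (Vx c t Γ)) (hD : D.card ≤ t) (z : ℕ → Fin (t + 2) × Γ)
    (v : ℕ → Fin (t + 2) → Γ) (a : ℕ → Fin s) (hv : ∀ i, (List.ofFn (v i)).prod = σ (a i))
    (he : ∀ i, insert (Sum.inr (z i)) (insert (Sum.inr (z (i + 1))) D) = graph c (v i))
    (hz : ∀ i, z i ≠ z (i + 2)) : (z 2).1 = (z 0).1 ∧ ((z 0).1 < (z 1).1 →
    ∀ i j, 2 * i ≤ L → 2 * j ≤ L → z (2 * i) = z (2 * j) → i = j) := by
  have m1 : ∀ i, v i (z i).1 = (z i).2 := fun i =>
    (mem_graph _ _).1 (he i ▸ Finset.mem_insert_self _ _)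
  have m2 : ∀ i, v i (z (i + 1)).1 = (z (i + 1)).2 := fun i =>
    (mem_graph _ _).1 (he i ▸ Finset.mem_insert_of_mem (Finset.mem_insert_self _ _))
  have m3 : ∀ i x, Sum.inr x ∈ D → v i x.1 = x.2 := fun i x hx =>
    (mem_graph _ _).1 (he i ▸ Finset.mem_insert_of_mem (Finset.mem_insert_of_mem hx))
  have n1 : ∀ i, Sum.inr (z i) ∉ insert (Sum.inr (z (i + 1))) D := by
    intro i h
    have h1 := graph_card c (v i)
    rw [← he i, Finset.insert_eq_of_mem h] at h1
    have := Finset.card_insert_le (Sum.inr (z (i + 1))) D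
    omega
  have c1 : ∀ i, (z i).1 ≠ (z (i + 1)).1 := by
    intro i h
    refine n1 i (Finset.mem_insert.2 (Or.inl (congrArg Sum.inr (Prod.ext h ?_))))
    rw [← m1 i, ← m2 i, h]
  have c2 : ∀ i q, q ≠ (z i).1 → q ≠ (z (i + 1)).1 → Sum.inr (q, v i q) ∈ D := by
    intro i q h1 h2
    have : Sum.inr (q, v i q) ∈ graph c (v i) := (mem_graph _ _).2 rfl
    rw [← he i] at this
    rcases Finset.mem_insert.1 this with h | h
    · exact absurd (congrArg Prod.fst (Sum.inr_injective h)) h1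
    · rcases Finset.mem_insert.1 h with h | h
      · exact absurd (congrArg Prod.fst (Sum.inr_injective h)) h2
      · exact h
  have c3 : ∀ i, (z (i + 2)).1 = (z i).1 := by
    intro i
    by_contra h
    have h1 := c2 i _ h (c1 (i + 1)).symm
    have h2 := m3 (i + 2) _ h1
    simp only at h2
    rw [← h2, m1 (i + 2)] at h1
    exact n1 (i + 2) (Finset.mem_insert_of_mem h1)
  refine ⟨c3 0, fun hlt => ?_⟩
  have p0 : ∀ j, (z (2 * j)).1 = (z 0).1 := by
    intro j
    induction j with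
    | zero => rfl
    | succ j ih => rw [show 2 * (j + 1) = 2 * j + 2 by ring, c3, ih]
  have q0 : ∀ j, (z (2 * j + 1)).1 = (z 1).1 := by
    intro j
    induction j with
    | zero => rfl
    | succ j ih => rw [show 2 * (j + 1) + 1 = 2 * j + 1 + 2 by ring, c3, ih]
  obtain ⟨h, g, h', hf⟩ := prod_factor (v 0) hlt
  have hupd : ∀ i α β, v i (z 0).1 = α → v i (z 1).1 = β →
      h * α * g * β * h' = σ (a i) := by
    intro i α β h1 h2
    rw [← hf, ← hv i]
    congr 2
    funext c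
    by_cases e1 : c = (z 1).1
    · rw [e1, Function.update_self, h2]
    · rw [Function.update_of_ne e1]
      by_cases e0 : c = (z 0).1
      · rw [e0, Function.update_self, h1]
      · rw [Function.update_of_ne e0]
        exact (m3 i _ (c2 0 c e0 e1)).symm
  intro i j hi hj e
  refine walk_inj hinv hfree h g h' (fun j => (z (2 * j)).2) (fun j => (z (2 * j + 1)).2)
    (fun j e => hz (2 * j) (Prod.ext (c3 _).symm e))
    (fun j e => hz (2 * j + 1) (Prod.ext (c3 _).symm e)) (fun j => a (2 * j))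
    (fun j => a (2 * j + 1)) (fun j => hupd _ _ _ ?_ ?_) (fun j => hupd _ _ _ ?_ ?_) i j hi hj
    (congrArg Prod.snd e)
  · rw [← p0 j, m1]
  · rw [← q0 j, m2]
  · rw [← p0 (j + 1)]
    exact m2 (2 * j + 1)
  · rw [← q0 j, m1]

lemma bigH_no_Q {m : ℕ} {σ : Fin s → Γ} (hinv : ∀ i, (σ i)⁻¹ = σ i)
    (hfree : ∀ (a : ℕ → Fin s) (g : ℕ → Γ), (∀ j, a j ≠ a (j + 1)) → g 0 = 1 →
        (∀ j, g (j + 1) = σ (a j) * g j) → ∀ i ≤ 2 * m + 1, ∀ j ≤ 2 * m + 1, g i = g j → i = j)
    (φ : Fin m → Vx c t Γ) (W : Set (Fin m)) : ¬ QC c t (bigH c t σ) (φ '' W) := by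
  classical
  rintro ⟨⟨u, hu⟩, hQ⟩
  have hU := bigH_unif (c := c) (t := t) σ
  obtain ⟨d, z, hd, hz⟩ := hQ (fun l => if Sum.inl l ∈ φ '' W then Sum.inl l else u)
    (fun l => by split_ifs with h; exacts [h, hu])
  have hnone : ∀ v ∈ φ '' W, (∀ l, Adj t (bigH c t σ)
      (if Sum.inl l ∈ φ '' W then Sum.inl l else u) v) → ∀ l, v ≠ Sum.inl l := by
    rintro v hv h l rfl
    exact (h l).ne hU (if_pos hv)
  have hd' : ∀ j l, d j ≠ Sum.inl l := fun j => hnone _ (hd j).1 (hd j).2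
  have hz' : ∀ i, ∃ x, z i = Sum.inr x := fun i => by
    cases h : z i with
    | inl l => exact absurd h (hnone _ (hz i).1 (hz i).2.1 l)
    | inr x => exact ⟨x, rfl⟩
  choose y hy using hz'
  have hD : (univ.image d).card ≤ t := by simpa using card_image_le (s := univ) (f := d)
  have hedge : ∀ i, ∃ (v : Fin (t + 2) → Γ) (a : Fin s), (List.ofFn v).prod = σ a ∧
      insert (Sum.inr (y i)) (insert (Sum.inr (y (i + 1))) (univ.image d)) = graph c v := by
    intro i
    have h := (hz i).2.2.1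
    unfold Ed at h
    rw [hy, hy] at h
    rcases mem_union.1 h with h | h
    · exfalso
      obtain ⟨l, this⟩ := (mem_filter.1 h).2
      simp only [mem_insert, reduceCtorEq, mem_image, mem_univ, true_and, false_or] at this
      obtain ⟨j, hj⟩ := this
      exact hd' j l hj
    · obtain ⟨v, hv, e⟩ := mem_image.1 h
      obtain ⟨a, ha⟩ := (mem_filter.1 hv).2
      exact ⟨v, a, ha, e.symm⟩
  choose v a hv he using hedge
  have hyne : ∀ i, y i ≠ y (i + 2) := fun i e => (hz i).2.2.2.ne hU (by rw [hy, hy, e])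
  have hfin : ∀ τ : ℕ, (∀ i j, 2 * i ≤ 2 * m + 1 → 2 * j ≤ 2 * m + 1 →
      y (2 * i + τ) = y (2 * j + τ) → i = j) → False := by
    intro τ ht
    choose w hw1 hw2 using fun i => (hz i).1
    have hinj : Function.Injective (fun i : Fin (m + 1) => w (2 * i + τ)) := by
      intro i j e
      have e2 : z (2 * i + τ) = z (2 * j + τ) := by rw [← hw2, ← hw2]; exact congrArg φ e
      rw [hy, hy] at e2
      exact Fin.ext (ht i j (by omega) (by omega) (Sum.inr_injective e2))
    have := Fintype.card_le_of_injective _ hinj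
    simp at this
  rcases lt_trichotomy (y 0).1 (y 1).1 with h | h | h
  · exact hfin 0 ((walk_core hinv hfree _ hD y v a hv he hyne).2 h)
  · have m1 : v 0 (y 0).1 = (y 0).2 := (mem_graph _ _).1 (he 0 ▸ Finset.mem_insert_self _ _)
    have m2 : v 0 (y 1).1 = (y 1).2 :=
      (mem_graph _ _).1 (he 0 ▸ Finset.mem_insert_of_mem (Finset.mem_insert_self _ _))
    have : y 0 = y 1 := Prod.ext h (by rw [← m1, ← m2, h])
    exact (hz 0).2.2.1.ne hU (by rw [hy, hy, this])
  · have h2 : (y 1).1 < (y 2).1 := by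
      rw [(walk_core hinv hfree _ hD y v a hv he hyne).1]
      exact h
    exact hfin 1 ((walk_core hinv hfree _ hD (fun i => y (i + 1)) (fun i => v (i + 1))
      (fun i => a (i + 1)) (fun i => hv (i + 1)) (fun i => he (i + 1))
      (fun i => hyne (i + 1))).2 h2)

end

end Pool.Agent.Lib.MP_d2ae2d_co.All
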