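import Pool.Agent.Lib.MP_d2ae2d_co.All.Up
import Pool.Agent.Lib.MP_d2ae2d_co.All.NoQ
import Pool.Agent.Lib.MP_d2ae2d_co.Hedge

/-! Strictly decreasing Turan densities in every uniformity at least three. -/

set_option autoImplicit false

namespace Pool.Agent.Lib.MP_d2ae2d_co.All

open Finset Filter
open scoped Topology

lemma poly_le_one {V : Type*} [Fintype V] [DecidableEq V] {r : ℕ} {H : Finset (Finset V)}
    (hH : Unif r H) {x : V → ℝ} (hx0 : ∀ v, 0 ≤ x v) (hx1 : ∑ v, x v = 1) :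
    r.factorial * poly H x ≤ 1 := by
  rw [← Ex_poly hH, ← Ex_one (I := Fin r) hx1]
  exact Ex_mono hx0 fun g _ => ind_le_one _

lemma exists_s (t : ℕ) {Y : ℝ} (hY : 0 < Y) : ∃ s : ℕ, ((t : ℝ) + 2) ^ (t + 3) < s * Y ^ (t + 2) := by
  obtain ⟨s, hs⟩ := exists_nat_gt (((t : ℝ) + 2) ^ (t + 3) / Y ^ (t + 2))
  exact ⟨s, (div_lt_iff₀ (by positivity)).1 hs⟩

section
variable {t c : ℕ} {w : Option (Fin c) → ℝ}

lemma density_gt (hw0 : ∀ o, 0 ≤ w o) (hw1 : ∑ o, w o = 1) (hY : 0 < w none) {m : ℕ}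
    {G : Finset (Finset (Fin m))} (hQ : ∃ W, QC c t G W) {d : ℝ}
    (hd : Tendsto (fun n : ℕ => (ex (t + 2) m G n : ℝ) / n.choose (t + 2)) atTop (𝓝 d)) :
    GG (t + 2) c w < d := by
  classical
  obtain ⟨s, hs⟩ := exists_s t hY
  obtain ⟨Γ, _, _, σ, hσ, hinv, hfree⟩ := exists_group s (2 * m + 1) (by omega)
  obtain ⟨W, hW⟩ := hQ
  refine (bigH_poly hw0 hw1 hs hσ).trans_le (ge_of_tendsto hd ?_)
  filter_upwards [eventually_ge_atTop (t + 2)] with n hn
  have hC : (0 : ℝ) < n.choose (t + 2) := by exact_mod_cast Nat.choose_pos hn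
  have := lower_bound (G := G) (bigH_unif (c := c) σ)
    (by rintro ⟨φ, hφ⟩; exact bigH_no_Q hinv hfree φ W (hW.map hφ)) (wt t Γ w) (wt_nonneg hw0)
    (wt_sum hw1) n
  rw [le_div_iff₀ hC]
  linarith

lemma GG_lt_one (hw0 : ∀ o, 0 ≤ w o) (hw1 : ∑ o, w o = 1) (hY : 0 < w none) :
    GG (t + 2) c w < 1 := by
  classical
  obtain ⟨s, hs⟩ := exists_s t hY
  obtain ⟨Γ, _, _, σ, hσ, -, -⟩ := exists_group s 1 one_pos
  exact (bigH_poly hw0 hw1 hs hσ).trans_le
    (poly_le_one (bigH_unif σ) (wt_nonneg hw0) (wt_sum hw1))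

end

/-- Densities of single hypergraphs accumulate from above at the density of the pattern. -/
theorem accumulate {t : ℕ} (ht : 0 < t) : ∃ a : ℝ, a < 1 ∧ ∀ b, a < b →
    ∃ (m : ℕ) (G : Finset (Finset (Fin m))) (d : ℝ), Unif (t + 2) G ∧ G.Nonempty ∧
      Tendsto (fun n : ℕ => (ex (t + 2) m G n : ℝ) / n.choose (t + 2)) atTop (𝓝 d) ∧
      a < d ∧ d < b := by
  classical
  obtain ⟨c, w, hw0, hw1, hY, hδ, hmax⟩ := exists_pat t (del_pos t)
  have a1 := GG_lt_one (t := t) hw0 hw1 hY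
  have a0 : 0 ≤ GG (t + 2) c w := sum_nonneg fun g _ =>
    mul_nonneg (prod_nonneg fun i _ => hw0 _) (ind_nonneg _)
  have dg := fun m G hQ d => density_gt (t := t) hw0 hw1 hY (m := m) (G := G) hQ (d := d)
  set a := GG (t + 2) c w
  have dense : ∀ {N : ℕ}, 0 < N → ∀ {F : Finset (Finset (Fin N))}, Unif (t + 2) F →
      a * (N : ℝ) ^ (t + 2) / (t + 2).factorial < F.card → ∃ W, QC c t F W := by
    intro N hN F hF h
    by_contra hQ
    have hN' : (N : ℝ) ≠ 0 := by positivity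
    have := not_Q_bound ht hδ hmax hF hQ (fun _ => (1 : ℝ) / N) (fun _ => by positivity)
      (by simp [hN'])
    rw [poly_unif hF, ← mul_div_assoc, div_le_iff₀ (by positivity)] at this
    rw [div_lt_iff₀ (by positivity)] at h
    linarith
  refine ⟨a, a1, fun b hb => ?_⟩
  obtain ⟨b', hb1, hb2⟩ := exists_between hb
  have e1 : ∀ᶠ n : ℕ in atTop, a < b' * cc (t + 2) n := by
    have : Tendsto (fun n => b' * cc (t + 2) n) atTop (𝓝 (b' * 1)) :=
      (cc_tendsto (t + 2)).const_mul b'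
    rw [mul_one] at this
    exact this.eventually (lt_mem_nhds hb1)
  have e2 : ∀ᶠ n : ℕ in atTop, a < cc (t + 2) n := (cc_tendsto (t + 2)).eventually (lt_mem_nhds a1)
  obtain ⟨N, h1, h2, hN, hrN⟩ :=
    (e1.and (e2.and ((eventually_gt_atTop 0).and (eventually_ge_atTop (t + 2))))).exists
  have hC : (0 : ℝ) < N.choose (t + 2) := by exact_mod_cast Nat.choose_pos hrN
  have hf : (0 : ℝ) < (t + 2).factorial := by positivity
  have hp : (0 : ℝ) < (N : ℝ) ^ (t + 2) := by positivity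
  unfold cc at h1 h2
  let I := {F : Finset (Finset (Fin N)) // Unif (t + 2) F ∧ ∃ W, QC c t F W}
  have hK : Unif (t + 2) ((univ : Finset (Fin N)).powersetCard (t + 2)) :=
    fun e he => (mem_powersetCard.1 he).2
  have : Nonempty I := ⟨⟨_, hK, dense hN hK (by
    rw [card_powersetCard, card_univ, Fintype.card_fin, div_lt_iff₀ hf]
    rw [lt_div_iff₀ hp] at h2
    linarith)⟩⟩
  obtain ⟨m, G, hG, hQ, hhom⟩ := exists_product (I := I) (fun i => i.1) (fun i => i.2.1)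
    (fun i => i.2.2)
  obtain ⟨d, hd⟩ := exists_limit hG hQ.choose_spec.nonempty
  refine ⟨m, G, d, hG, hQ.choose_spec.nonempty, hd, dg m G hQ d hd,
    lt_of_le_of_lt (le_of_tendsto hd ?_) hb2⟩
  refine upper_bound hrN hG (γ := a * (N : ℝ) ^ (t + 2) / (t + 2).factorial)
    (by positivity) (fun F hF => ?_) ?_
  · by_cases h : a * (N : ℝ) ^ (t + 2) / (t + 2).factorial < F.card
    · exact Or.inl (hhom ⟨F, hF, dense hN hF h⟩)
    · exact Or.inr (not_lt.1 h)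
  · rw [← mul_div_assoc, lt_div_iff₀ hp] at h1
    rw [div_lt_iff₀ hC, div_lt_iff₀ hf]
    linarith

theorem decreasing (k : ℕ) (hk : 3 ≤ k) :
    ∃ (m : ℕ → ℕ) (L : ∀ i, Finset (Finset (Fin (m i)))) (f : ℕ → ℕ → ℕ) (d : ℕ → ℝ),
      (∀ i, ∀ e ∈ L i, e.card = k) ∧
      (∀ i n, IsLeast {t : ℕ | ∀ H : Finset (Finset (Fin n)), (∀ e ∈ H, e.card = k) →
        H.card = t → ∃ φ : Fin (m i) ↪ Fin n, ∀ e ∈ L i, e.map φ ∈ H} (f i n)) ∧
      (∀ i, Tendsto (fun n : ℕ => (f i n : ℝ) / n.choose k) atTop (𝓝 (d i))) ∧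
      StrictAnti d := by
  obtain ⟨t, rfl⟩ : ∃ t, k = t + 2 := ⟨k - 2, by omega⟩
  obtain ⟨a, a1, h⟩ := accumulate (t := t) (by omega)
  choose m G d h1 h2 h3 h4 h5 using h
  let b : ℕ → {b : ℝ // a < b} := fun i =>
    Nat.rec ⟨1, a1⟩ (fun _ b => ⟨d b.1 b.2, h4 _ _⟩) i
  have h0 : Tendsto (fun n : ℕ => (1 : ℝ) / n.choose (t + 2)) atTop (𝓝 0) :=
    tendsto_const_nhds.div_atTop ((isEquivalent_choose (t + 2)).symm.tendsto_atTop
      (((tendsto_pow_atTop (n := t + 2) (by omega)).comp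
        tendsto_natCast_atTop_atTop).atTop_div_const (by positivity)))
  refine ⟨fun i => m (b i).1 (b i).2, fun i => G (b i).1 (b i).2,
    fun i n => ex (t + 2) _ (G (b i).1 (b i).2) n + 1, fun i => d (b i).1 (b i).2,
    fun i => h1 _ _, fun i n => isLeast_ex (h2 _ _) n, fun i => ?_,
    strictAnti_nat_of_succ_lt fun i => h5 (b (i + 1)).1 (b (i + 1)).2⟩
  have := (h3 (b i).1 (b i).2).add h0
  rw [add_zero] at this
  refine this.congr fun n => ?_
  push_cast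
  ring

end Pool.Agent.Lib.MP_d2ae2d_co.All
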