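import Pool.Agent.Lib.MP_d2ae2d_co.All.Ex
import Pool.Agent.Lib.MP_d2ae2d_co.Limit

/-! The pattern with `c` single points and one large part, and its maximal density. -/

set_option autoImplicit false

namespace Pool.Agent.Lib.MP_d2ae2d_co.All

open Finset Filter
open scoped Topology

def good {r c : ℕ} (h : Fin r → Option (Fin c)) : Prop :=
  (∀ i j, h i = h j → h i ≠ none → i = j) ∧ ∃ i, h i ≠ none

noncomputable def GG (r c : ℕ) (w : Option (Fin c) → ℝ) : ℝ :=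
  Ex w (fun h : Fin r → Option (Fin c) => ind (good h))

lemma swap_le {t c : ℕ} {w : Option (Fin c) → ℝ} (hw : ∀ o, 0 ≤ w o) (h0 : w none = 0)
    (l : Fin c) : GG (t + 2) c w ≤ GG (t + 2) c (push (fun o => if o = some l then none else o) w) := by
  unfold GG
  rw [← Ex_push]
  refine Ex_mono hw fun g hg => ind_mono fun h => ?_
  have hn : ∀ i, g i ≠ none := fun i e => hg i (by rw [e, h0])
  have hi : ∀ i j, g i = g j → i = j := fun i j e => h.1 i j e (hn i)
  constructor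
  · intro i j e e'
    by_cases a : g i = some l
    · simp [a] at e'
    · by_cases b : g j = some l
      · simp [a, b, hn i] at e
      · exact hi i j (by simpa [a, b] using e)
  · by_cases a : g 0 = some l
    · refine ⟨1, ?_⟩
      have b : g 1 ≠ some l := fun b => by simpa using hi 0 1 (a.trans b.symm)
      simpa [b] using hn 1
    · exact ⟨0, by simpa [a] using hn 0⟩

lemma exists_max (t c : ℕ) : ∃ w : Option (Fin c) → ℝ, (∀ o, 0 ≤ w o) ∧ ∑ o, w o = 1 ∧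
    0 < w none ∧ ∀ w' : Option (Fin c) → ℝ, (∀ o, 0 ≤ w' o) → ∑ o, w' o = 1 →
      GG (t + 2) c w' ≤ GG (t + 2) c w := by
  have hc : Continuous (GG (t + 2) c) := by unfold GG Ex; fun_prop
  obtain ⟨w, hw, hmax⟩ := (isCompact_stdSimplex ℝ (Option (Fin c))).exists_isMaxOn
    ⟨_, single_mem_stdSimplex ℝ none⟩ hc.continuousOn
  rcases (hw.1 none).lt_or_eq with h | h
  · exact ⟨w, hw.1, hw.2, h, fun w' h1 h2 => hmax (show w' ∈ stdSimplex ℝ _ from ⟨h1, h2⟩)⟩
  · obtain ⟨o, ho⟩ : ∃ o, w o ≠ 0 := by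
      by_contra hn
      push Not at hn
      simpa [hn] using hw.2
    obtain ⟨l, rfl⟩ : ∃ l, o = some l := Option.ne_none_iff_exists'.1 fun e => ho (e ▸ h.symm)
    refine ⟨_, push_nonneg _ hw.1, (push_sum _ _).trans hw.2, ?_, fun w' h1 h2 =>
      (hmax (show w' ∈ stdSimplex ℝ _ from ⟨h1, h2⟩)).trans (swap_le hw.1 h.symm l)⟩
    refine ((hw.1 _).lt_of_ne' ho).trans_le ?_
    exact single_le_sum (f := w) (fun v _ => hw.1 v) (by simp)

lemma cc_le {t c : ℕ} (hc : 0 < c) : ∃ w : Option (Fin c) → ℝ, (∀ o, 0 ≤ w o) ∧ ∑ o, w o = 1 ∧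
    cc (t + 2) c ≤ GG (t + 2) c w := by
  have hc' : (c : ℝ) ≠ 0 := by positivity
  have h0 : ∀ v : Fin c, (0 : ℝ) ≤ 1 / c := fun _ => by positivity
  refine ⟨push some (fun _ => (1 : ℝ) / c), push_nonneg _ h0, by rw [push_sum]; simp [hc'], ?_⟩
  have hK : Unif (t + 2) ((univ : Finset (Fin c)).powersetCard (t + 2)) :=
    fun e he => (mem_powersetCard.1 he).2
  have := Ex_poly hK (fun _ => (1 : ℝ) / c)
  rw [poly_unif hK, card_powersetCard, card_univ, Fintype.card_fin, ← mul_div_assoc] at this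
  unfold GG cc
  rw [← Ex_push, ← this]
  refine Ex_mono h0 fun g _ => ind_mono fun h => ⟨fun i j e _ => ?_, 0, by simp⟩
  exact inj_of_mem hK h (Option.some.inj e)

lemma exists_pat (t : ℕ) {δ : ℝ} (hδ : 0 < δ) : ∃ (c : ℕ) (w : Option (Fin c) → ℝ),
    (∀ o, 0 ≤ w o) ∧ ∑ o, w o = 1 ∧ 0 < w none ∧ 1 - δ ≤ GG (t + 2) c w ∧
    ∀ w' : Option (Fin c) → ℝ, (∀ o, 0 ≤ w' o) → ∑ o, w' o = 1 →
      GG (t + 2) c w' ≤ GG (t + 2) c w := by
  obtain ⟨c, h1, h2⟩ := (((cc_tendsto (t + 2)).eventually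
    (lt_mem_nhds (show 1 - δ < 1 by linarith))).and (eventually_gt_atTop 0)).exists
  obtain ⟨w, a1, a2, a3, a4⟩ := exists_max t c
  obtain ⟨w', b1, b2, b3⟩ := cc_le (t := t) h2
  exact ⟨c, w, a1, a2, a3, h1.le.trans (b3.trans (a4 w' b1 b2)), a4⟩

end Pool.Agent.Lib.MP_d2ae2d_co.All
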