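import Pool.Agent.Lib.MP_d2ae2d_co.All.Pat
import Pool.Agent.Lib.MP_d2ae2d_co.All.QC
import Pool.Agent.Lib.MP_d2ae2d_co.Upper

/-! Hypergraphs without the property have Lagrangian at most that of the pattern. -/

set_option autoImplicit false

namespace Pool.Agent.Lib.MP_d2ae2d_co.All

open Finset

noncomputable def del (t : ℕ) : ℝ :=
  (1 / (2 * (((t + 2).factorial : ℝ) + t))) ^ (t + 2) / ((t + 2).factorial + 1)

lemma del_pos (t : ℕ) : 0 < del t := by unfold del; positivity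

lemma arith {t : ℕ} (ht : 0 < t) {a P σ E Y : ℝ} (ha : 1 - del t ≤ a) (hσ : 0 ≤ σ) (hY : 0 ≤ Y)
    (hY1 : Y ≤ 1) (h1 : P ≤ a - σ * E + (t + 2).factorial * (σ * Y ^ t)) (h2 : P ≤ 1 - σ)
    (h3 : P ≤ 1 - Y ^ (t + 2) + (t + 2).factorial * (σ * Y ^ t)) (h4 : P ≤ E + (1 - (1 - Y) ^ t)) :
    P ≤ a := by
  have hK : (1 : ℝ) ≤ (t + 2).factorial := by exact_mod_cast Nat.factorial_pos _
  unfold del at ha
  set K : ℝ := ((t + 2).factorial : ℝ)
  have t0 : (0 : ℝ) ≤ t := Nat.cast_nonneg _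
  set η : ℝ := 1 / (2 * (K + t)) with hη
  have η0 : 0 < η := by positivity
  have η1 : (K + t) * η = 1 / 2 := by rw [hη]; field_simp
  by_cases hE : K * Y ^ t ≤ E
  · nlinarith [mul_le_mul_of_nonneg_left hE hσ]
  refine le_trans ?_ ha
  have p1 : Y ^ t ≤ Y := pow_le_of_le_one hY hY1 ht.ne'
  rcases le_total η Y with h | h
  · have p2 : η ^ (t + 2) ≤ Y ^ (t + 2) := pow_le_pow_left₀ η0.le h _
    have p3 : σ * Y ^ t ≤ σ := mul_le_of_le_one_right hσ (p1.trans hY1)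
    rw [le_sub_comm, div_le_iff₀ (by positivity)]
    nlinarith
  · have p2 := one_add_mul_le_pow (show (-2 : ℝ) ≤ -Y by linarith) t
    have p3 : η ^ (t + 2) ≤ 1 := pow_le_one₀ η0.le (by nlinarith)
    have p4 : η ^ (t + 2) / (K + 1) ≤ 1 / 2 := by
      rw [div_le_iff₀ (by positivity)]; linarith
    have p5 : (K + t) * Y ≤ (K + t) * η := by gcongr
    have p6 : K * Y ^ t ≤ K * Y := by gcongr
    rw [← sub_eq_add_neg] at p2
    nlinarith

section
variable {V : Type*} [DecidableEq V]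

lemma dd_le (B : Finset V) {y : V → ℝ} (hy : ∀ v, 0 ≤ y v) (m : ℕ) :
    dd B y (m + 1) ≤ (∑ v ∈ B, y v ^ 2) * ee B y m := by
  have h1 := double_count B m (fun p j => (∏ v ∈ p, y v) * y j * y j)
  have h2 : ∑ q ∈ B.powersetCard (m + 1), ∑ j ∈ q, (∏ v ∈ q.erase j, y v) * y j * y j =
      dd B y (m + 1) := by
    refine sum_congr rfl fun q _ => ?_
    rw [mul_sum]
    exact sum_congr rfl fun j hj => by rw [prod_erase_mul q y hj]
  rw [← h2, ← h1, ee, mul_sum]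
  refine sum_le_sum fun p _ => ?_
  rw [sum_mul]
  have := prod_nonneg (s := p) fun v _ => hy v
  refine (sum_le_sum_of_subset_of_nonneg sdiff_subset fun v _ _ => ?_).trans_eq
    (sum_congr rfl fun v _ => by ring)
  have := hy v
  positivity

lemma ee_le (B : Finset V) {y : V → ℝ} (hy : ∀ v, 0 ≤ y v) {m : ℕ} (hm : 0 < m) :
    ee B y m ≤ (∑ v ∈ B, y v) ^ m := by
  obtain ⟨m, rfl⟩ : ∃ k, m = k + 1 := ⟨m - 1, by omega⟩
  have h := ee_bound B hy m
  have he0 : 0 ≤ ee B y (m + 1) := sum_nonneg fun p _ => prod_nonneg fun v _ => hy v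
  have hd0 : 0 ≤ dd B y m := sum_nonneg fun p _ =>
    mul_nonneg (prod_nonneg fun v _ => hy v) (sum_nonneg fun v _ => hy v)
  have hK : (1 : ℝ) ≤ (m + 1).factorial := by exact_mod_cast Nat.factorial_pos _
  nlinarith

lemma bound_core [Fintype V] {t c : ℕ} (ht : 0 < t) {a : ℝ} (ha : 1 - del t ≤ a)
    (hmax : ∀ w : Option (Fin c) → ℝ, (∀ o, 0 ≤ w o) → ∑ o, w o = 1 → GG (t + 2) c w ≤ a)
    {H : Finset (Finset V)} (hH : Unif (t + 2) H) {y : V → ℝ} (hy0 : ∀ v, 0 ≤ y v)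
    (hy1 : ∑ v, y v = 1) (B : Finset V) (π : V → Option (Fin c))
    (hπ1 : ∀ v, y v ≠ 0 → (π v = none ↔ v ∈ B)) (hπ2 : ∀ v w, π v = π w → π v ≠ none → v = w)
    (hf : t * poly (H.filter (· ⊆ B)) y ≤ dd B y (t + 1)) :
    (t + 2).factorial * poly H y ≤ a := by
  set Y := ∑ v ∈ B, y v with hY
  set σ := ∑ v ∈ B, y v ^ 2 with hσ
  have Y0 : 0 ≤ Y := sum_nonneg fun v _ => hy0 v
  have Y1 : Y ≤ 1 := hy1 ▸ sum_le_sum_of_subset_of_nonneg (subset_univ B) fun v _ _ => hy0 v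
  have σ0 : 0 ≤ σ := sum_nonneg fun v _ => sq_nonneg _
  have hB : Unif (t + 2) (H.filter (· ⊆ B)) := fun e he => hH e (mem_filter.1 he).1
  have hT : Ex y (fun g : Fin (t + 2) → V => ind (univ.image g ∈ H.filter (· ⊆ B))) ≤
      (t + 2).factorial * (σ * Y ^ t) := by
    rw [Ex_poly hB]
    have p0 : 0 ≤ poly (H.filter (· ⊆ B)) y := sum_nonneg fun p _ => prod_nonneg fun v _ => hy0 v
    have t1 : (1 : ℝ) ≤ t := by exact_mod_cast ht
    have := (hf.trans (dd_le B hy0 t)).trans (mul_le_mul_of_nonneg_left (ee_le B hy0 ht) σ0)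
    exact mul_le_mul_of_nonneg_left (by nlinarith) (by positivity)
  have hin : ∀ g : Fin (t + 2) → V, univ.image g ∈ H → (∀ i, g i ∈ B) →
      univ.image g ∈ H.filter (· ⊆ B) := fun g h1 h2 =>
    mem_filter.2 ⟨h1, image_subset_iff.2 fun i _ => h2 i⟩
  have h01 : (0 : Fin (t + 2)) ≠ 1 := by simp
  rw [← Ex_poly hH]
  refine arith ht ha σ0 Y0 Y1
    (E := Ex y (fun h : Fin t → V => ind (Function.Injective h ∧ ∀ i, h i ∉ B))) ?_ ?_ ?_ ?_
  · have e1 := Ex_split y (fun a b => ind (a = b ∧ a ∈ B))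
      (fun h : Fin t → V => ind (Function.Injective h ∧ ∀ i, h i ∉ B))
    have e2 : ∑ a, ∑ b, y a * y b * ind (a = b ∧ a ∈ B) = σ := by
      simp [ind_ite, ite_and, hσ, sq]
    rw [e2] at e1
    have e3 := hmax _ (push_nonneg π hy0) ((push_sum π y).trans hy1)
    rw [GG, ← Ex_push] at e3
    refine le_trans ?_ (add_le_add (sub_le_sub_right e3 _) hT)
    rw [← e1, ← Ex_sub, ← Ex_add]
    refine Ex_mono hy0 fun g hg => ?_
    by_cases h : univ.image g ∈ H
    · have hi := inj_of_mem hH h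
      rw [ind_pos h, ind_neg (p := g 0 = g 1 ∧ _) (fun e => h01 (hi e.1)), zero_mul, sub_zero]
      by_cases hb : ∀ i, g i ∈ B
      · rw [ind_pos (hin g h hb)]
        exact le_add_of_nonneg_left (ind_nonneg _)
      · push Not at hb
        obtain ⟨i, hb⟩ := hb
        rw [ind_pos (p := good _) ⟨fun i j e e' => hi (hπ2 _ _ e e'), i,
          fun e => hb ((hπ1 _ (hg i)).1 e)⟩]
        exact le_add_of_nonneg_right (ind_nonneg _)
    · rw [ind_neg h]
      refine add_nonneg (sub_nonneg.2 ?_) (ind_nonneg _)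
      by_cases a1 : g 0 = g 1 ∧ g 0 ∈ B
      · rw [ind_pos a1, one_mul]
        refine ind_mono fun a2 => ⟨fun i j e e' => ?_, (⟨0, ht⟩ : Fin t).succ.succ,
          fun e => a2.2 _ ((hπ1 _ (hg _)).1 e)⟩
        have n1 : g i ∉ B := fun b => e' ((hπ1 _ (hg i)).2 b)
        have e2 := hπ2 _ _ e e'
        have key : ∀ l, g l ∉ B → ∃ m : Fin t, l = m.succ.succ := fun l hl => by
          rcases Fin.eq_zero_or_eq_succ l with rfl | ⟨l, rfl⟩
          · exact absurd a1.2 hl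
          · rcases Fin.eq_zero_or_eq_succ l with rfl | ⟨l, rfl⟩
            · exact absurd (a1.1 ▸ a1.2) hl
            · exact ⟨l, rfl⟩
        obtain ⟨i, rfl⟩ := key i n1
        obtain ⟨j, rfl⟩ := key j (e2 ▸ n1)
        rw [a2.1 e2]
      · rw [ind_neg a1, zero_mul]
        exact ind_nonneg _
  · rw [hσ, ← Ex_pair hy1 B h01, ← Ex_one (I := Fin (t + 2)) hy1, ← Ex_sub]
    refine Ex_mono hy0 fun g _ => ?_
    by_cases h : univ.image g ∈ H
    · rw [ind_pos h, ind_neg (fun e => h01 (inj_of_mem hH h e.1)), sub_zero]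
    · rw [ind_neg h]
      exact sub_nonneg.2 (ind_le_one _)
  · have e1 := Ex_all (I := Fin (t + 2)) y B
    rw [Fintype.card_fin] at e1
    refine le_trans ?_ (add_le_add le_rfl hT)
    rw [hY, ← e1, ← Ex_one (I := Fin (t + 2)) hy1, ← Ex_sub, ← Ex_add]
    refine Ex_mono hy0 fun g _ => ?_
    by_cases h : univ.image g ∈ H
    · by_cases hb : ∀ i, g i ∈ B
      · rw [ind_pos h, ind_pos hb, ind_pos (hin g h hb)]; norm_num
      · rw [ind_pos h, ind_neg hb, sub_zero]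
        exact le_add_of_nonneg_right (ind_nonneg _)
    · rw [ind_neg h]
      exact add_nonneg (sub_nonneg.2 (ind_le_one _)) (ind_nonneg _)
  · have e1 := Ex_all (I := Fin t) y Bᶜ
    have e2 : ∑ v ∈ Bᶜ, y v = 1 - Y := by rw [← hy1, ← sum_add_sum_compl B y]; ring
    rw [Fintype.card_fin, e2] at e1
    have e3 := Ex_split y (fun _ _ => 1) (fun h : Fin t → V => ind (Function.Injective h))
    have e4 : ∑ a, ∑ b, y a * y b * 1 = 1 := by simp [← mul_sum, hy1]
    rw [e4, one_mul] at e3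
    refine (Ex_mono hy0 fun g _ => ?_).trans (e3.trans_le ?_)
    · rw [one_mul]
      exact ind_mono fun h i j e => Fin.succ_injective _ (Fin.succ_injective _ (inj_of_mem hH h e))
    · have e5 := Ex_one (I := Fin t) hy1
      rw [← e1]
      nth_rewrite 1 [← e5]
      rw [← Ex_sub, ← Ex_add]
      refine Ex_mono hy0 fun g _ => ?_
      by_cases hb : ∀ i, g i ∈ Bᶜ
      · rw [ind_pos hb, sub_self, add_zero]
        exact ind_mono fun h => ⟨h, fun i => mem_compl.1 (hb i)⟩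
      · rw [ind_neg hb, sub_zero]
        exact (ind_le_one _).trans (le_add_of_nonneg_left (ind_nonneg _))

lemma not_Q_bound [Fintype V] {t c : ℕ} (ht : 0 < t) {a : ℝ} (ha : 1 - del t ≤ a)
    (hmax : ∀ w : Option (Fin c) → ℝ, (∀ o, 0 ≤ w o) → ∑ o, w o = 1 → GG (t + 2) c w ≤ a)
    {H : Finset (Finset V)} (hH : Unif (t + 2) H) (hQ : ¬ ∃ W, QC c t H W) (x : V → ℝ)
    (hx0 : ∀ v, 0 ≤ x v) (hx1 : ∑ v, x v = 1) : (t + 2).factorial * poly H x ≤ a := by
  classical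
  obtain ⟨y, hy0, hy1, hle, hcov⟩ := symmetrize H _ x (Nat.lt_succ_self _) hx0 hx1
  have hadj : ∀ u v, y u ≠ 0 → y v ≠ 0 → u ≠ v → Adj t H u v := by
    intro u v hu hv huv
    obtain ⟨e, he, h1, h2⟩ := hcov u v hu hv huv
    exact adj_of_mem hH huv he h1 h2
  have hne : {v | y v ≠ 0}.Nonempty := by
    by_contra h
    rw [Set.not_nonempty_iff_eq_empty, Set.eq_empty_iff_forall_notMem] at h
    have : ∀ v, y v = 0 := fun v => by simpa using h v
    simp [this] at hy1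
  have h1 : ¬ QC c t H {v | y v ≠ 0} := fun h => hQ ⟨_, h⟩
  unfold QC at h1
  rw [not_and, not_forall] at h1
  obtain ⟨u, h2⟩ := h1 hne
  rw [Classical.not_imp] at h2
  obtain ⟨hu, h2⟩ := h2
  set B : Finset V := univ.filter (fun v => y v ≠ 0 ∧ ∀ l, u l ≠ v) with hB
  have hmem : ∀ v, v ∈ B ↔ y v ≠ 0 ∧ ∀ l, u l ≠ v := fun v => by simp [hB]
  have hf := forest_bound ht hH B hy0 (by
    rintro D hD ⟨z, hz⟩
    obtain ⟨hD1, hD2⟩ := mem_powersetCard.1 hD
    obtain ⟨d, rfl⟩ := exists_enum D hD2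
    have hd : ∀ j, d j ∈ B := fun j => hD1 (mem_image_of_mem _ (mem_univ j))
    have ad : ∀ v ∈ B, ∀ l, Adj t H (u l) v := fun v hv l =>
      hadj _ _ (hu l) ((hmem _).1 hv).1 (((hmem _).1 hv).2 l)
    exact h2 ⟨d, z, fun j => ⟨((hmem _).1 (hd j)).1, ad _ (hd j)⟩, fun i =>
      ⟨((hmem _).1 (hz i).1).1, ad _ (hz i).1, (hz i).2.1,
      hadj _ _ ((hmem _).1 (hz i).1).1 ((hmem _).1 (hz (i + 2)).1).1 (hz i).2.2⟩⟩)
  refine (mul_le_mul_of_nonneg_left hle (by positivity)).trans (bound_core ht ha hmax hH hy0 hy1 B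
    (fun v => if h : ∃ l, u l = v then some h.choose else none) (fun v hv => ?_)
    (fun v w e e' => ?_) hf)
  · rw [hmem]
    by_cases h : ∃ l, u l = v
    · simp [h]
    · rw [dif_neg h]
      exact ⟨fun _ => ⟨hv, fun l e => h ⟨l, e⟩⟩, fun _ => rfl⟩
  · by_cases h : ∃ l, u l = v
    · by_cases h' : ∃ l, u l = w
      · simp only [dif_pos h, dif_pos h', Option.some.injEq] at e
        rw [← h.choose_spec, ← h'.choose_spec, e]
      · simp [h, h'] at e
    · simp [h] at e'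

end

end Pool.Agent.Lib.MP_d2ae2d_co.All
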